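import Mathlib
import Pool.Agent.Helper975.Ptol.Main

set_option autoImplicit false

namespace Pool.Agent.Results.MP_594704_gt.AllKinds

open Set

/-- Euclidean `n`-space. -/
abbrev E (n : ℕ) := EuclideanSpace ℝ (Fin n)

/-- `d` is a metric on the set `U`. -/
def IsMetricOn {X : Type*} (U : Set X) (d : X → X → ℝ) : Prop :=
  (∀ x ∈ U, ∀ y ∈ U, (d x y = 0 ↔ x = y)) ∧ (∀ x ∈ U, ∀ y ∈ U, d x y = d y x) ∧
    (∀ x ∈ U, ∀ y ∈ U, ∀ z ∈ U, d x z ≤ d x y + d y z)

/-- `d` is Ptolemaic on `U`. -/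
def IsPtolemaicOn {X : Type*} (U : Set X) (d : X → X → ℝ) : Prop :=
  ∀ x ∈ U, ∀ y ∈ U, ∀ z ∈ U, ∀ w ∈ U, d x z * d y w ≤ d x y * d z w + d y z * d w x

/-- The metric `d` induces the Euclidean topology on `U`. -/
def InducesTopology {n : ℕ} (U : Set (E n)) (d : E n → E n → ℝ) : Prop :=
  ∀ x ∈ U, ∀ ε : ℝ, 0 < ε →
    (∃ δ : ℝ, 0 < δ ∧ ∀ y ∈ U, dist x y < δ → d x y < ε) ∧
      (∃ δ : ℝ, 0 < δ ∧ ∀ y ∈ U, d x y < δ → dist x y < ε)

/-- `(U, d)` is a projective-metric space of affine kind. -/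
structure IsAffineKind {n : ℕ} (U : Set (E n)) (d : E n → E n → ℝ) : Prop where
  nonempty : U.Nonempty
  isOpen : IsOpen U
  convex : Convex ℝ U
  metric : IsMetricOn U d
  topology : InducesTopology U d
  segments : ∀ x ∈ U, ∀ y ∈ U, ∀ z ∈ U, (d x y + d y z = d x z ↔ y ∈ segment ℝ x z)
  lines : ∀ x ∈ U, ∀ v : E n, v ≠ 0 → ∃ f : ℝ → E n,
    BijOn f univ {y | y ∈ U ∧ ∃ s : ℝ, y = x + s • v} ∧ ∀ s t : ℝ, d (f s) (f t) = |s - t|

/-- `d` makes real projective `n`-space a projective-metric space of elliptic kind: every projective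
line is isometric to a circle of one fixed length `ℓ`. -/
structure IsEllipticKind (n : ℕ)
    (d : Projectivization ℝ (E (n + 1)) → Projectivization ℝ (E (n + 1)) → ℝ) : Prop where
  metric : IsMetricOn univ d
  lines : ∃ ℓ : ℝ, 0 < ℓ ∧ ∀ W : Submodule ℝ (E (n + 1)), Module.finrank ℝ W = 2 →
    ∃ f : AddCircle ℓ → Projectivization ℝ (E (n + 1)),
      BijOn f univ {p | p.submodule ≤ W} ∧ ∀ s t : AddCircle ℓ, d (f s) (f t) = dist s t

/-- `(U, d)` is isometric to Euclidean `n`-space. -/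
def IsEuclideanModel {n : ℕ} (U : Set (E n)) (d : E n → E n → ℝ) : Prop :=
  ∃ f : E n → E n, BijOn f U univ ∧ ∀ x ∈ U, ∀ y ∈ U, d x y = dist (f x) (f y)

/-- `(U, d)` is isometric to hyperbolic `n`-space of curvature `-1 / c ^ 2` for some `c > 0`, in the
Klein model on the unit ball: the distance of two points `p`, `q` of the unit ball is the number
`δ ≥ 0` with `cosh (δ / c) = (1 - ⟪p, q⟫) / √((1 - ‖p‖ ^ 2) (1 - ‖q‖ ^ 2))`. -/
def IsHyperbolicModel {n : ℕ} (U : Set (E n)) (d : E n → E n → ℝ) : Prop :=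
  ∃ c : ℝ, 0 < c ∧ ∃ f : E n → E n, BijOn f U (Metric.ball 0 1) ∧
    ∀ x ∈ U, ∀ y ∈ U, Real.cosh (d x y / c) =
      (1 - inner ℝ (f x) (f y)) / Real.sqrt ((1 - ‖f x‖ ^ 2) * (1 - ‖f y‖ ^ 2))

lemma cont_of {n : ℕ} {U : Set (E n)} {d : E n → E n → ℝ} (h : IsAffineKind U d) :
    ContinuousOn (fun p : E n × E n => d p.1 p.2) (U ×ˢ U) := by
  obtain ⟨-, hs, ht⟩ := h.metric
  rw [Metric.continuousOn_iff]
  rintro ⟨b1, b2⟩ ⟨hb1, hb2⟩ ε hε
  simp only at hb1 hb2
  obtain ⟨δ1, h1, k1⟩ := (h.topology b1 hb1 (ε / 2) (by linarith)).1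
  obtain ⟨δ2, h2, k2⟩ := (h.topology b2 hb2 (ε / 2) (by linarith)).1
  refine ⟨min δ1 δ2, lt_min h1 h2, ?_⟩
  rintro ⟨a1, a2⟩ ⟨ha1, ha2⟩ hab
  simp only at ha1 ha2
  rw [Prod.dist_eq] at hab
  simp only at hab
  have e1 : dist b1 a1 < δ1 := by
    rw [dist_comm]
    exact lt_of_le_of_lt (le_max_left _ _) (lt_of_lt_of_le hab (min_le_left _ _))
  have e2 : dist b2 a2 < δ2 := by
    rw [dist_comm]
    exact lt_of_le_of_lt (le_max_right _ _) (lt_of_lt_of_le hab (min_le_right _ _))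
  have c1 := k1 a1 ha1 e1
  have c2 := k2 a2 ha2 e2
  have t1 := ht a1 ha1 b1 hb1 a2 ha2
  have t2 := ht b1 hb1 b2 hb2 a2 ha2
  have t3 := ht b1 hb1 a1 ha1 b2 hb2
  have t4 := ht a1 ha1 a2 ha2 b2 hb2
  rw [hs a1 ha1 b1 hb1] at t1
  rw [hs a2 ha2 b2 hb2] at t4
  show dist (d a1 a2) (d b1 b2) < ε
  rw [Real.dist_eq, abs_lt]
  constructor <;> linarith

/-- nonnegativity -/
lemma nonneg_of {n : ℕ} {U : Set (E n)} {d : E n → E n → ℝ} (h : IsAffineKind U d)
    {x y : E n} (hx : x ∈ U) (hy : y ∈ U) : 0 ≤ d x y := by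
  obtain ⟨h0, hs, ht⟩ := h.metric
  have t := ht x hx y hy x hx
  rw [(h0 x hx x hx).2 rfl, hs y hy x hx] at t
  linarith

/-- on every ray from `x` there is a point at distance larger than `r` -/
lemma far_of {n : ℕ} {U : Set (E n)} {d : E n → E n → ℝ} (h : IsAffineKind U d)
    {x : E n} (hx : x ∈ U) {v : E n} (hv : v ≠ 0) (r : ℝ) :
    ∃ s : ℝ, 0 < s ∧ x + s • v ∈ U ∧ r < d x (x + s • v) := by
  obtain ⟨h0, hs, ht⟩ := h.metric
  obtain ⟨f, ⟨hm, hinj, hsurj⟩, hf⟩ := h.lines x hx v hv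
  obtain ⟨a, -, ha⟩ := hsurj (show x ∈ {y | y ∈ U ∧ ∃ s : ℝ, y = x + s • v} from
    ⟨hx, 0, by simp⟩)
  obtain ⟨R, hR⟩ : ∃ R : ℝ, R = |r| + 1 := ⟨_, rfl⟩
  have hR0 : 0 < R := by rw [hR]; positivity
  have hRr : r < R := by rw [hR]; linarith [le_abs_self r]
  obtain ⟨hpU, σp, hσp⟩ := hm (mem_univ (a + R))
  obtain ⟨hqU, σq, hσq⟩ := hm (mem_univ (a - R))
  have dp : d x (f (a + R)) = R := by
    rw [← ha, hf]
    rw [show a - (a + R) = -R by ring, abs_neg, abs_of_pos hR0]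
  have dq : d x (f (a - R)) = R := by
    rw [← ha, hf]
    rw [show a - (a - R) = R by ring, abs_of_pos hR0]
  have dqp : d (f (a - R)) (f (a + R)) = 2 * R := by
    rw [hf]
    rw [show a - R - (a + R) = -(2 * R) by ring, abs_neg, abs_of_pos (by linarith)]
  have hseg : x ∈ segment ℝ (f (a - R)) (f (a + R)) := by
    rw [← h.segments _ hqU x hx _ hpU, dqp, dp, hs _ hqU x hx, dq]
    ring
  obtain ⟨α, β, hα, hβ, hαβ, hx2⟩ := hseg
  have hsum : (α * σq + β * σp) • v = 0 := by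
    rw [hσq, hσp] at hx2
    have e : α • (x + σq • v) + β • (x + σp • v) = (α + β) • x + (α * σq + β * σp) • v := by
      module
    rw [e, hαβ, one_smul] at hx2
    simpa using hx2
  have hz : α * σq + β * σp = 0 := by
    rcases smul_eq_zero.1 hsum with h1 | h1
    · exact h1
    · exact absurd h1 hv
  have hσp0 : σp ≠ 0 := by
    intro h1
    rw [h1] at hσp
    rw [hσp] at dp
    simp [(h0 x hx x hx).2 rfl] at dp
    linarith
  have hσq0 : σq ≠ 0 := by
    intro h1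
    rw [h1] at hσq
    rw [hσq] at dq
    simp [(h0 x hx x hx).2 rfl] at dq
    linarith
  rcases lt_or_gt_of_ne hσp0 with hp | hp
  · rcases lt_or_gt_of_ne hσq0 with hq | hq
    · exfalso
      rcases lt_or_eq_of_le hα with h1 | h1
      · nlinarith [mul_pos_of_neg_of_neg (neg_lt_zero.2 h1) hq, mul_nonneg hβ (neg_pos.2 hp).le]
      · have : β = 1 := by linarith
        rw [← h1, this] at hz
        linarith
    · exact ⟨σq, hq, hσq ▸ hqU, by rw [← hσq, dq]; exact hRr⟩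
  · exact ⟨σp, hp, hσp ▸ hpU, by rw [← hσp, dp]; exact hRr⟩

/-- closed balls are compact -/
lemma proper_of {n : ℕ} {U : Set (E n)} {d : E n → E n → ℝ} (h : IsAffineKind U d)
    {x : E n} (hx : x ∈ U) (r : ℝ) : IsCompact {y | y ∈ U ∧ d x y ≤ r} := by
  obtain ⟨h0, hs, ht⟩ := h.metric
  have hcont := cont_of h
  have hcx : ContinuousOn (fun y => d x y) U := by
    have : ContinuousOn (fun y : E n => (x, y)) U := by fun_prop
    exact hcont.comp this (fun y hy => ⟨hx, hy⟩)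
  -- local statement on the sphere
  have hloc : ∀ v ∈ Metric.sphere (0 : E n) 1, ∃ s : ℝ, 0 < s ∧ ∃ ε : ℝ, 0 < ε ∧
      ∀ w ∈ Metric.closedBall v ε, x + s • w ∈ U ∧ r < d x (x + s • w) := by
    intro v hv
    have hv0 : v ≠ 0 := by
      rintro rfl
      simp at hv
    obtain ⟨s, hs0, hsU, hsr⟩ := far_of h hx hv0 r
    have hopen : IsOpen (U ∩ (fun y => d x y) ⁻¹' Ioi r) :=
      hcx.isOpen_inter_preimage h.isOpen isOpen_Ioi
    have hc : Continuous fun w : E n => x + s • w := by fun_prop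
    have hmem : (fun w : E n => x + s • w) ⁻¹' (U ∩ (fun y => d x y) ⁻¹' Ioi r) ∈ nhds v :=
      (hopen.preimage hc).mem_nhds ⟨hsU, hsr⟩
    obtain ⟨ε, hε, hsub⟩ := Metric.nhds_basis_closedBall.mem_iff.1 hmem
    exact ⟨s, hs0, ε, hε, fun w hw => hsub hw⟩
  choose! s hs0 ε hε hsub using hloc
  obtain ⟨t, htS, htc⟩ := (isCompact_sphere (0 : E n) 1).elim_nhds_subcover
    (fun v => Metric.closedBall v (ε v))
    (fun v hv => Metric.closedBall_mem_nhds v (hε v hv))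
  obtain ⟨K, hK⟩ : ∃ K : Set (E n), K = insert x (⋃ v ∈ t,
      (fun p : ℝ × E n => x + p.1 • p.2) '' (Icc 0 (s v) ×ˢ Metric.closedBall v (ε v))) :=
    ⟨_, rfl⟩
  have hKc : IsCompact K := by
    rw [hK]
    apply IsCompact.insert
    apply t.isCompact_biUnion
    intro v _
    apply (isCompact_Icc.prod (isCompact_closedBall v (ε v))).image
    fun_prop
  have hKU : K ⊆ U := by
    rw [hK]
    apply insert_subset hx
    apply iUnion₂_subset
    rintro v hv _ ⟨⟨a, w⟩, ⟨⟨ha0, ha1⟩, hw⟩, rfl⟩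
    simp only at ha0 ha1 hw
    have h1 := (hsub v (htS v hv) w hw).1
    have h2 := hs0 v (htS v hv)
    apply h.convex.segment_subset hx h1
    rw [segment_eq_image']
    refine ⟨a / s v, ⟨div_nonneg ha0 h2.le, (div_le_one h2).2 ha1⟩, ?_⟩
    show x + (a / s v) • (x + s v • w - x) = x + a • w
    rw [add_sub_cancel_left, smul_smul, div_mul_cancel₀ _ h2.ne']
  have hBK : {y | y ∈ U ∧ d x y ≤ r} = K ∩ {y | y ∈ K ∧ d x y ≤ r} := by
    ext y
    constructor
    · rintro ⟨hy, hyr⟩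
      suffices hyK : y ∈ K from ⟨hyK, hyK, hyr⟩
      rcases eq_or_ne y x with rfl | hne
      · rw [hK]; exact mem_insert _ _
      · have hn0 : 0 < ‖y - x‖ := norm_pos_iff.2 (sub_ne_zero.2 hne)
        obtain ⟨w, hw⟩ : ∃ w : E n, w = (‖y - x‖)⁻¹ • (y - x) := ⟨_, rfl⟩
        have hyw : y = x + ‖y - x‖ • w := by
          rw [hw, smul_smul, mul_inv_cancel₀ hn0.ne', one_smul]; abel
        have hwS : w ∈ Metric.sphere (0 : E n) 1 := by
          rw [mem_sphere_zero_iff_norm, hw, norm_smul, norm_inv, norm_norm,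
            inv_mul_cancel₀ hn0.ne']
        obtain ⟨v, hvt, hvw⟩ := mem_iUnion₂.1 (htc hwS)
        have h1 := hsub v (htS v hvt) w hvw
        have h2 := hs0 v (htS v hvt)
        rw [hK]
        right
        refine mem_iUnion₂.2 ⟨v, hvt, (‖y - x‖, w), ⟨⟨hn0.le, ?_⟩, hvw⟩, hyw.symm⟩
        show ‖y - x‖ ≤ s v
        by_contra hlt
        push Not at hlt
        have hz : x + s v • w ∈ segment ℝ x y := by
          rw [segment_eq_image']
          refine ⟨s v / ‖y - x‖, ⟨by positivity, (div_le_one hn0).2 hlt.le⟩, ?_⟩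
          show x + (s v / ‖y - x‖) • (y - x) = x + s v • w
          rw [hw, smul_smul, div_eq_mul_inv]
        have h3 := (h.segments x hx _ h1.1 y hy).2 hz
        have h4 := nonneg_of h h1.1 hy
        linarith [h1.2]
    · rintro ⟨hyK, -, hyr⟩
      exact ⟨hKU hyK, hyr⟩
  rw [hBK]
  apply hKc.inter_right
  have h1 : ContinuousOn (fun y => d x y) K := hcx.mono hKU
  have h2 := h1.preimage_isClosed_of_isClosed hKc.isClosed (isClosed_Iic (a := r))
  exact h2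

lemma exists_plane (n : ℕ) (hn : 1 ≤ n) :
    ∃ W : Submodule ℝ (E (n + 1)), Module.finrank ℝ W = 2 := by
  have hle : 2 ≤ n + 1 := by omega
  let b := (EuclideanSpace.basisFun (Fin (n + 1)) ℝ).toBasis
  have hli : LinearIndependent ℝ (fun i : Fin 2 => b (Fin.castLE hle i)) :=
    b.linearIndependent.comp _ (Fin.castLE_injective hle)
  exact ⟨Submodule.span ℝ (range fun i : Fin 2 => b (Fin.castLE hle i)), by
    rw [finrank_span_eq_card hli, Fintype.card_fin]⟩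

lemma elliptic_not {n : ℕ} (hn : 1 ≤ n)
    {d : Projectivization ℝ (E (n + 1)) → Projectivization ℝ (E (n + 1)) → ℝ}
    (h : IsEllipticKind n d) : ¬ IsPtolemaicOn univ d := by
  obtain ⟨ℓ, hℓ, hl⟩ := h.lines
  obtain ⟨W, hW⟩ := exists_plane n hn
  obtain ⟨f, -, hf⟩ := hl W hW
  intro hp
  have h1 := hp (f ((0 : ℝ) : AddCircle ℓ)) (mem_univ _) (f ((ℓ / 4 : ℝ) : AddCircle ℓ))
    (mem_univ _) (f ((ℓ / 2 : ℝ) : AddCircle ℓ)) (mem_univ _)
    (f ((3 * ℓ / 4 : ℝ) : AddCircle ℓ)) (mem_univ _)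
  simp only [hf, dist_eq_norm, ← AddCircle.coe_sub] at h1
  have hn1 : ∀ x : ℝ, |x| ≤ ℓ / 2 → ‖(x : AddCircle ℓ)‖ = |x| := by
    intro x hx
    exact (AddCircle.norm_coe_eq_abs_iff ℓ hℓ.ne').2 (by rwa [abs_of_pos hℓ])
  rw [show (0 : ℝ) - ℓ / 2 = -(ℓ / 2) by ring, show ℓ / 4 - 3 * ℓ / 4 = -(ℓ / 2) by ring,
    show (0 : ℝ) - ℓ / 4 = -(ℓ / 4) by ring, show ℓ / 2 - 3 * ℓ / 4 = -(ℓ / 4) by ring,
    show ℓ / 4 - ℓ / 2 = -(ℓ / 4) by ring] at h1
  have e2 : ‖((-(ℓ / 2) : ℝ) : AddCircle ℓ)‖ = ℓ / 2 := by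
    rw [hn1 _ (by rw [abs_neg, abs_of_pos (by linarith)]), abs_neg, abs_of_pos (by linarith)]
  have e4 : ‖((-(ℓ / 4) : ℝ) : AddCircle ℓ)‖ = ℓ / 4 := by
    rw [hn1 _ (by rw [abs_neg, abs_of_pos (by linarith)]; linarith), abs_neg,
      abs_of_pos (by linarith)]
  have e3 : ‖((3 * ℓ / 4 - 0 : ℝ) : AddCircle ℓ)‖ = ℓ / 4 := by
    have : ((3 * ℓ / 4 - 0 : ℝ) : AddCircle ℓ) = ((-(ℓ / 4) : ℝ) : AddCircle ℓ) := by
      rw [← AddCircle.coe_add_period ℓ (-(ℓ / 4))]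
      congr 1
      ring
    rw [this, e4]
  rw [e2, e4, e3] at h1
  nlinarith

/-- Ptolemaic projective-metric spaces, both kinds, `n ≥ 2`: a Ptolemaic projective-metric space of
affine kind is a model of Euclidean or of hyperbolic geometry, and a projective-metric space of
elliptic kind is never Ptolemaic. -/
theorem result (n : ℕ) (hn : 2 ≤ n) :
    (∀ (U : Set (E n)) (d : E n → E n → ℝ), IsAffineKind U d → IsPtolemaicOn U d →
      IsEuclideanModel U d ∨ IsHyperbolicModel U d) ∧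
    (∀ d : Projectivization ℝ (E (n + 1)) → Projectivization ℝ (E (n + 1)) → ℝ,
      IsEllipticKind n d → ¬ IsPtolemaicOn univ d) := by
  refine ⟨fun U d h hp => ?_, fun d h => elliptic_not (by omega) h⟩
  exact Pool.Agent.Helper975.Ptol.main_thm n U d h.nonempty
    { isOpen := h.isOpen
      convex := h.convex
      eq_zero := h.metric.1
      symm := h.metric.2.1
      tri := h.metric.2.2
      cont := cont_of h
      top := fun x hx ε hε => (h.topology x hx ε hε).2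
      cpt := fun x hx r => proper_of h hx r
      seg := h.segments
      ptol := hp }

end Pool.Agent.Results.MP_594704_gt.AllKinds
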